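import Pool.Agent.Helper62.LH.StV

/-!
# Project LH, module INA: pointwise inequalities for covectors
-/

set_option autoImplicit false

namespace Pool.Agent.Helper2.LH

open Helper62.LH

namespace INA

variable {n : ℕ} {g : E n → Bl n} {x : E n} {f : Fin n → E n}

lemma gvv (hf : Onb g x f) (v : E n) : g x v v = ∑ i, g x v (f i) ^ 2 := by
  conv_lhs => rw [← hf.expd v]
  have e : ∀ i, g x (∑ i, g x v (f i) • f i) (f i) = g x v (f i) := by
    intro i
    rw [hf.expd v]
  simp only [map_sum, map_smul, smul_eq_mul]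
  refine Finset.sum_congr rfl fun i _ => ?_
  have h := e i
  simp only [map_sum, map_smul] at h
  rw [h]
  ring

lemma av (hf : Onb g x f) (a : Dl n) (v : E n) : a v = ∑ i, g x v (f i) * a (f i) := by
  conv_lhs => rw [← hf.expd v]
  simp only [map_sum, map_smul, smul_eq_mul]

end INA

open INA in
theorem hIna (hOnb : StOnb) (hTr : StTr) : StIna := by
  intro n g hg x
  obtain ⟨f, hf⟩ := hOnb n g hg x
  obtain ⟨-, hip, -, hnB, -⟩ := hTr n g hg x f hf
  have hipa : ∀ a : Dl n, ip g x a a = ∑ i, a (f i) ^ 2 := by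
    intro a
    rw [hip]
    exact Finset.sum_congr rfl fun i _ => by ring
  have h0 : ∀ a : Dl n, 0 ≤ ip g x a a := by
    intro a
    rw [hipa]
    exact Finset.sum_nonneg fun i _ => sq_nonneg _
  have hnr : ∀ v, nr g x v ^ 2 = ∑ i, g x v (f i) ^ 2 := by
    intro v
    rw [nr, Real.sq_sqrt, gvv hf]
    rw [gvv hf]
    exact Finset.sum_nonneg fun i _ => sq_nonneg _
  have h4 : ∀ a b : Dl n, |ip g x a b| ≤ √(ip g x a a) * √(ip g x b b) := by
    intro a b
    rw [← Real.sqrt_mul (h0 a), hipa, hipa, hip]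
    apply Real.abs_le_sqrt
    exact Finset.sum_mul_sq_le_sq_mul_sq _ _ _
  have h5 : ∀ (a : Dl n) (v : E n), |a v| ≤ √(ip g x a a) * nr g x v := by
    intro a v
    rw [nr, ← Real.sqrt_mul (h0 a), hipa, gvv hf, av hf a v, mul_comm (∑ i, a (f i) ^ 2)]
    apply Real.abs_le_sqrt
    exact Finset.sum_mul_sq_le_sq_mul_sq _ _ _
  refine ⟨h0, ?_, ?_, h4, h5, ?_, ?_, ?_⟩
  · intro a b
    rw [hip, hip]
    exact Finset.sum_congr rfl fun i _ => mul_comm _ _
  · intro a ha
    ext v
    have h := h5 a v
    rw [ha, Real.sqrt_zero, zero_mul] at h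
    exact abs_nonpos_iff.mp h
  · intro a b s hs
    rw [hipa, hipa, hipa, Finset.mul_sum, Finset.mul_sum, ← Finset.sum_add_distrib]
    refine Finset.sum_le_sum fun i _ => ?_
    show (a (f i) + b (f i)) ^ 2 ≤ _
    have key : 0 ≤ (s * a (f i) - b (f i)) ^ 2 / s := by positivity
    have e : (1 + s) * a (f i) ^ 2 + (1 + 1 / s) * b (f i) ^ 2 - (a (f i) + b (f i)) ^ 2 =
        (s * a (f i) - b (f i)) ^ 2 / s := by
      field_simp
      ring
    linarith
  · intro a r hr h
    set t := ip g x a a with ht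
    set u : E n := ∑ i, a (f i) • f i with hu
    have hau : a u = t := by
      rw [hu, ht, hipa]
      simp only [map_sum, map_smul, smul_eq_mul]
      exact Finset.sum_congr rfl fun i _ => by ring
    have hgu : ∀ j, g x u (f j) = a (f j) := by
      intro j
      rw [hu]
      simp only [map_sum, map_smul, sum_apply, smul_apply, smul_eq_mul, hf.orth]
      simp
    have hnu : nr g x u ^ 2 = t := by
      rw [hnr, ht, hipa]
      exact Finset.sum_congr rfl fun i _ => by rw [hgu]
    have ht0 : 0 ≤ t := h0 a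
    have hn0 : 0 ≤ nr g x u := Real.sqrt_nonneg _
    have h1 := h u
    rw [hau, abs_of_nonneg ht0] at h1
    by_cases hz : nr g x u = 0
    · rw [hz] at hnu
      rw [← hnu]
      have : 0 ≤ r ^ 2 := sq_nonneg r
      simpa using this
    · have hpos : 0 < nr g x u := lt_of_le_of_ne hn0 (Ne.symm hz)
      have h2 : nr g x u ≤ r := by
        have : nr g x u * nr g x u ≤ r * nr g x u := by
          rw [← sq, hnu]
          exact h1
        exact le_of_mul_le_mul_right this hpos
      rw [← hnu]
      exact pow_le_pow_left₀ hn0 h2 2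
  · intro B u
    rw [hipa, hnB, gvv hf u, Finset.sum_comm, Finset.sum_mul]
    refine Finset.sum_le_sum fun j _ => ?_
    have e : B u (f j) = ∑ i, g x u (f i) * B (f i) (f j) := by
      have := av hf ((ContinuousLinearMap.flip B) (f j)) u
      exact this
    rw [e, mul_comm (∑ i, B (f i) (f j) ^ 2)]
    exact Finset.sum_mul_sq_le_sq_mul_sq _ _ _

end Pool.Agent.Helper2.LH
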