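import Pool.Agent.Helper62.LH.StV

/-!
# Project LH, module ONB: orthonormal bases exist
-/

set_option autoImplicit false

namespace Pool.Agent.Helper2.LH

open Helper62.LH
open scoped MatrixOrder ComplexOrder

namespace ONB

open scoped Matrix.Norms.L2Operator in
theorem exP {n : ℕ} (M : Matrix (Fin n) (Fin n) ℝ) (hM : M.PosDef) :
    ∃ P : Matrix (Fin n) (Fin n) ℝ, P.transpose * M * P = 1 := by
  obtain ⟨B, hB, hMB⟩ := CStarAlgebra.isStrictlyPositive_iff_eq_star_mul_self.mp
    (Matrix.isStrictlyPositive_iff_posDef.mpr hM)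
  refine ⟨B⁻¹, ?_⟩
  have hu : IsUnit B.det := (Matrix.isUnit_iff_isUnit_det B).mp hB
  rw [hMB, Matrix.star_eq_conjTranspose, Matrix.conjTranspose_eq_transpose_of_trivial,
    Matrix.transpose_nonsing_inv, ← Matrix.mul_assoc, Matrix.nonsing_inv_mul _ (by
      rw [Matrix.det_transpose]; exact hu), Matrix.one_mul, Matrix.mul_nonsing_inv _ hu]

lemma expand {n : ℕ} (v : E n) : v = ∑ i, v i • ee i := by
  ext j
  simp [ee, Finset.sum_apply, Pi.single_apply]

/-- expansion of a bilinear form -/
lemma bil {n : ℕ} (B : Bl n) (u v : E n) : B u v = ∑ i, ∑ j, u i * v j * B (ee i) (ee j) := by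
  conv_lhs => rw [expand u, expand v]
  simp only [map_sum, map_smul, sum_apply, smul_apply,
    smul_eq_mul, Finset.mul_sum]
  rw [Finset.sum_comm]
  refine Finset.sum_congr rfl fun i _ => Finset.sum_congr rfl fun j _ => ?_
  ring

lemma gm_posDef {n : ℕ} (g : E n → Bl n) (hg : IsMet g) (x : E n) : (gm g x).PosDef := by
  refine Matrix.PosDef.of_dotProduct_mulVec_pos ?_ ?_
  · rw [Matrix.IsHermitian, Matrix.conjTranspose_eq_transpose_of_trivial]
    ext i j
    exact hg.symm x _ _
  · intro v hv
    set w : E n := WithLp.toLp 2 v with hw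
    have hw0 : w ≠ 0 := by
      intro h
      apply hv
      funext i
      have := congrArg (fun z : E n => z i) h
      exact this
    have h := hg.pos x w hw0
    rw [bil] at h
    have e : star v ⬝ᵥ (gm g x).mulVec v = ∑ i, ∑ j, w i * w j * g x (ee i) (ee j) := by
      simp only [dotProduct, Matrix.mulVec, Finset.mul_sum]
      refine Finset.sum_congr rfl fun i _ => Finset.sum_congr rfl fun j _ => ?_
      show v i * (g x (ee i) (ee j) * v j) = v i * v j * g x (ee i) (ee j)
      ring
    rw [e]
    exact h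

end ONB

open ONB in
theorem hOnb : StOnb := by
  intro n g hg x
  set M := gm g x with hM
  have hpd : M.PosDef := gm_posDef g hg x
  obtain ⟨P, hP⟩ := exP M hpd
  have hdetM : 0 < M.det := hpd.det_pos
  have hPu : P.det * (M.det * P.det) = 1 := by
    have h := congrArg Matrix.det hP
    rw [Matrix.det_mul, Matrix.det_mul, Matrix.det_transpose, Matrix.det_one] at h
    linarith
  have hMu : IsUnit M.det := isUnit_iff_ne_zero.mpr hdetM.ne'
  have hPPt : P * P.transpose = M⁻¹ := by
    -- Pᵀ M P = 1, so (M P) Pᵀ = 1 ...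
    have h1 : (M * P) * P.transpose = 1 := by
      apply mul_eq_one_comm.mp
      rw [← Matrix.mul_assoc]
      exact hP
    rw [Matrix.mul_assoc] at h1
    exact (Matrix.inv_eq_right_inv h1).symm
  have hPMP : ∀ i j, ∑ k, ∑ l, P k i * P l j * g x (ee k) (ee l) = if i = j then (1 : ℝ) else 0 := by
    intro i j
    have h := congrFun (congrFun hP i) j
    rw [Matrix.one_apply] at h
    rw [← h, Matrix.mul_assoc]
    simp only [Matrix.mul_apply, Matrix.transpose_apply, Finset.mul_sum]
    refine Finset.sum_congr rfl fun k _ => Finset.sum_congr rfl fun l _ => ?_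
    show _ = P k i * (g x (ee k) (ee l) * P l j)
    ring
  refine ⟨fun a => WithLp.toLp 2 (fun i => P i a), ?_, ?_, ?_, ?_⟩
  · intro i j
    rw [bil]
    exact hPMP i j
  · intro v
    ext j
    have e1 : ∀ a, g x v (WithLp.toLp 2 (fun i => P i a)) = ∑ k, ∑ l, v l * P k a * g x (ee l) (ee k) := by
      intro a
      rw [bil, Finset.sum_comm]
    have e2 : ∀ a, (g x v (WithLp.toLp 2 (fun i => P i a)) • (WithLp.toLp 2 (fun i => P i a) : E n)) j =
        ∑ k, ∑ l, v l * P k a * g x (ee l) (ee k) * P j a := by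
      intro a
      rw [PiLp.smul_apply, e1, smul_eq_mul, Finset.sum_mul]
      refine Finset.sum_congr rfl fun k _ => ?_
      rw [Finset.sum_mul]
    have e3 : (∑ a, g x v (WithLp.toLp 2 (fun i => P i a)) • (WithLp.toLp 2 (fun i => P i a) : E n)) j =
        ∑ a, ∑ k, ∑ l, v l * P k a * g x (ee l) (ee k) * P j a := by
      rw [WithLp.ofLp_sum, Finset.sum_apply]
      exact Finset.sum_congr rfl fun a _ => e2 a
    rw [e3]
    have e4 : ∑ l, v l * (∑ k, M l k * (P * P.transpose) k j) = v j := by
      have : ∀ l, ∑ k, M l k * (P * P.transpose) k j = (1 : Matrix (Fin n) (Fin n) ℝ) l j := by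
        intro l
        rw [← Matrix.mul_apply, hPPt, Matrix.mul_nonsing_inv _ hMu]
      simp only [this, Matrix.one_apply, mul_ite, mul_one, mul_zero, Finset.sum_ite_eq',
        Finset.mem_univ, if_true]
    rw [← e4]
    simp only [Matrix.mul_apply, Matrix.transpose_apply, Finset.mul_sum]
    rw [Finset.sum_comm]
    have e5 : ∀ k, ∑ a, ∑ l, v l * P k a * g x (ee l) (ee k) * P j a =
        ∑ l, ∑ a, v l * (M l k * (P k a * P j a)) := by
      intro k
      rw [Finset.sum_comm]
      refine Finset.sum_congr rfl fun l _ => Finset.sum_congr rfl fun a _ => ?_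
      show _ = v l * (g x (ee l) (ee k) * (P k a * P j a))
      ring
    rw [Finset.sum_congr rfl fun k _ => e5 k, Finset.sum_comm]
  · intro i j
    show (M⁻¹) i j = _
    rw [← hPPt]
    rfl
  · have hv : vdet (fun a => (WithLp.toLp 2 (fun i => P i a) : E n)) = P.det := by
      rw [vdet, ← Matrix.det_transpose]
      rfl
    rw [hv, vol, mul_pow, Real.sq_sqrt hdetM.le]
    linarith

end Pool.Agent.Helper2.LH
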